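import Pool.Agent.Helper313PK.NotZero

/-!
# Peak sets for analytic Lipschitz classes are not the zero sets of the Gevrey classes

For every `α ∈ (0, 1]` there is a (countable) closed subset `E` of the unit circle which is a peak set
for the analytic Lipschitz class `A_α` and is not a zero set for the Gevrey class `G_α`. So the equality
`P_α = Z(G_α)` fails for every `α ∈ (0, 1]`.

The set, for `α < 1`: the point `1` and, for every `k`, `N_k` equally spaced points in the arc
`J_k = {e^{it} : s_k ≤ t < 2 s_k}`, where `s_k = 16^{-k-1}` and `N_k` is the least integer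
`≥ (k+1)^{-1/α} s_k^{1-1/α}`, so that `s_k (s_k / N_k)^{-α} ≥ 1/(k+1)` up to a constant.

*Peak set.* Put `f = 1/(1 + 1/g)` with `g(ζ) = K/(1-ζ) + ∑_{k,j} 1/H_k(1 - ζ \bar p_{kj})`,
`H_k(z) = z^α + z/m_k`, where the cut-off `m_k` is chosen such that the singularity of order `α` at
`p_{kj}` is felt only at a distance less than `s_k^{1/α}/4` of `p_{kj}`. The norms of the terms sum up to
a constant times the real part of `g`, and this gives the Lipschitz estimate for `1/g`.

*Not a zero set.* A function of `G_α` flat at all the points of `E` satisfies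
`log |F(z)| ≤ C - c dist(z, E)^{-α}` (Taylor's formula, with the order optimised), and on `J_k` the
distance of `r e^{it}` from `E` is at most `2 s_k/N_k` for `r` close to `1`. So the mean of `log |F|` on
the circle of radius `r` is at most `C - c' ∑_{k<n} 1/(k+1)`, and by Jensen's formula it is bounded below
if `F ≢ 0`.
-/

set_option autoImplicit false

open Metric Filter Topology

namespace Pool.Agent.Results.MP_129fce_an.PeakNotZero

/-- The class `A_α`: `f` is analytic in the unit disc, continuous on the closed unit disc, and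
`|f(ζ₁) - f(ζ₂)| ≤ C |ζ₁ - ζ₂|^α` for all `ζ₁`, `ζ₂` on the unit circle, for some constant `C`. -/
def InA (α : ℝ) (f : ℂ → ℂ) : Prop :=
  DifferentiableOn ℂ f (ball 0 1) ∧ ContinuousOn f (closedBall 0 1) ∧
    ∃ C : ℝ, ∀ ζ₁ ∈ sphere (0 : ℂ) 1, ∀ ζ₂ ∈ sphere (0 : ℂ) 1,
      ‖f ζ₁ - f ζ₂‖ ≤ C * ‖ζ₁ - ζ₂‖ ^ α

/-- `E ∈ P_α`: `E` is a closed subset of the unit circle, and some `f ∈ A_α` is `1` on `E` and has
modulus less than `1` on the rest of the unit circle. -/
def IsPeak (α : ℝ) (E : Set ℂ) : Prop :=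
  E ⊆ sphere 0 1 ∧ IsClosed E ∧ ∃ f : ℂ → ℂ, InA α f ∧ (∀ ζ ∈ E, f ζ = 1) ∧
    ∀ ζ ∈ sphere (0 : ℂ) 1, ζ ∉ E → ‖f ζ‖ < 1

/-- The Gevrey class `G_α`: `f` is analytic in the unit disc and, for some constant `C`,
`|f⁽ⁿ⁾(z)| ≤ C^(n+1) (n!)^(1+1/α)` for all `n` and all `z` in the unit disc. -/
def InG (α : ℝ) (f : ℂ → ℂ) : Prop :=
  DifferentiableOn ℂ f (ball 0 1) ∧
    ∃ C : ℝ, ∀ n : ℕ, ∀ z ∈ ball (0 : ℂ) 1,
      ‖iteratedDeriv n f z‖ ≤ C ^ (n + 1) * (n.factorial : ℝ) ^ (1 + 1 / α)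

/-- `E ∈ Z(G_α)`: `E` is a subset of the unit circle, and for some `f ∈ G_α`, not identically zero on
the unit disc, the (continuous extensions to the closed disc of the) derivatives of all orders
`n ≥ 0` of `f` vanish on `E`, that is, `f⁽ⁿ⁾(z) → 0` as `z` tends to `ζ` within the unit disc, for all
`ζ ∈ E`. -/
def IsZero (α : ℝ) (E : Set ℂ) : Prop :=
  E ⊆ sphere 0 1 ∧ ∃ f : ℂ → ℂ, InG α f ∧ (∃ z ∈ ball (0 : ℂ) 1, f z ≠ 0) ∧
    ∀ ζ ∈ E, ∀ n : ℕ, Tendsto (iteratedDeriv n f) (𝓝[ball 0 1] ζ) (𝓝 0)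

open Pool.Agent.Helper313PK in
theorem countable_EE (α : ℝ) : (EE α).Countable := by
  have e : EE α ⊆ {1} ∪ ⋃ k : ℕ, ⋃ j : ℕ, {pt α k j} := by
    rintro z (rfl | ⟨k, j, -, rfl⟩)
    · exact Or.inl rfl
    · right
      simp only [Set.mem_iUnion]
      exact ⟨k, j, rfl⟩
  refine Set.Countable.mono e ((Set.countable_singleton _).union ?_)
  exact Set.countable_iUnion fun k => Set.countable_iUnion fun j => Set.countable_singleton _

theorem peak_one : IsPeak 1 {1} := by
  refine ⟨by simp, isClosed_singleton, fun z => (1 + z) / 2, ⟨?_, ?_, 1 / 2, ?_⟩, ?_, ?_⟩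
  · fun_prop
  · fun_prop
  · intro ζ₁ _ ζ₂ _
    have e : (1 + ζ₁) / 2 - (1 + ζ₂) / 2 = (ζ₁ - ζ₂) / 2 := by ring
    rw [e, norm_div, Real.rpow_one]
    simp only [Complex.norm_ofNat]
    linarith
  · intro ζ hζ
    rw [Set.mem_singleton_iff] at hζ
    rw [hζ]
    norm_num
  · intro ζ hζ h
    rw [mem_sphere_zero_iff_norm] at hζ
    have hre : ζ.re ≤ 1 := by
      have := Complex.re_le_norm ζ
      rwa [hζ] at this
    have hsq : ζ.re ^ 2 + ζ.im ^ 2 = 1 := by
      have := Complex.sq_norm ζ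
      rw [hζ, Complex.normSq_apply] at this
      nlinarith
    have hlt : ζ.re < 1 := by
      refine lt_of_le_of_ne hre fun h1 => h ?_
      rw [h1] at hsq
      have him : ζ.im = 0 := by nlinarith
      exact Complex.ext h1 him
    have h2 : ‖1 + ζ‖ ^ 2 < 2 ^ 2 := by
      rw [Complex.sq_norm, Complex.normSq_apply]
      simp only [Complex.add_re, Complex.one_re, Complex.add_im, Complex.one_im]
      nlinarith
    have h3 : ‖1 + ζ‖ < 2 := lt_of_pow_lt_pow_left₀ 2 (by norm_num) h2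
    rw [norm_div]
    simp only [Complex.norm_ofNat]
    linarith

open Pool.Agent.Helper313PK in
/-- For every `α ∈ (0, 1]` there is a countable closed subset of the unit circle which is a peak set
for `A_α` but not a zero set for `G_α`. -/
theorem result (α : ℝ) (h0 : 0 < α) (h1 : α ≤ 1) :
    ∃ E : Set ℂ, E.Countable ∧ IsPeak α E ∧ ¬ IsZero α E := by
  rcases h1.lt_or_eq with h1 | rfl
  · refine ⟨EE α, countable_EE α, ?_, ?_⟩
    · obtain ⟨f, hf, ⟨C, hC⟩, hE, hlt⟩ := exists_peak h0 h1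
      refine ⟨fun ζ hζ => mem_sphere_zero_iff_norm.2 (EE_norm hζ), EE_closed, f, ⟨hf, ?_, C, ?_⟩,
        hE, ?_⟩
      · intro ζ hζ
        rw [ContinuousWithinAt, tendsto_iff_norm_sub_tendsto_zero]
        have l1 : Tendsto (fun w => C * ‖w - ζ‖ ^ α) (𝓝[closedBall 0 1] ζ) (𝓝 0) := by
          have : Tendsto (fun w => C * ‖w - ζ‖ ^ α) (𝓝[closedBall 0 1] ζ)
              (𝓝 (C * ‖ζ - ζ‖ ^ α)) := by
            refine Tendsto.mono_left ?_ nhdsWithin_le_nhds
            refine Tendsto.const_mul C ?_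
            have hc : ContinuousAt (fun w : ℂ => ‖w - ζ‖ ^ α) ζ :=
              ContinuousAt.rpow_const (by fun_prop) (Or.inr h0.le)
            exact hc.tendsto
          rwa [sub_self, norm_zero, Real.zero_rpow h0.ne', mul_zero] at this
        refine squeeze_zero' (Eventually.of_forall fun _ => norm_nonneg _) ?_ l1
        filter_upwards [self_mem_nhdsWithin] with w hw
        exact hC w hw ζ hζ
      · intro ζ₁ h₁ ζ₂ h₂
        exact hC ζ₁ (sphere_subset_closedBall h₁) ζ₂ (sphere_subset_closedBall h₂)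
      · intro ζ hζ h
        exact hlt ζ (sphere_subset_closedBall hζ) h
    · rintro ⟨-, F, ⟨hF, C, hC⟩, ⟨z, hz, hne⟩, hflat⟩
      exact hne (not_flat h0 h1 hF hC hflat z hz)
  · refine ⟨{1}, Set.countable_singleton _, peak_one, ?_⟩
    rintro ⟨-, F, ⟨hF, C, hC⟩, ⟨z, hz, hne⟩, hflat⟩
    exact hne (not_flat_one hF hC (hflat 1 rfl) z hz)

end Pool.Agent.Results.MP_129fce_an.PeakNotZero
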